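import Mathlib

set_option autoImplicit false

namespace Pool.Agent.Results.MP_f2857b_co.SpreadFails
open Finset
open scoped Classical

/-- `X` is the vertex set of a copy of `G` in the graph `c`. -/
def IsCopySet {a n : ℕ} (G : SimpleGraph (Fin a)) (c : SimpleGraph (Fin n)) (X : Finset (Fin n)) :
    Prop :=
  ∃ f : Fin a → Fin n, Function.Injective f ∧ (∀ u v, G.Adj u v → c.Adj (f u) (f v)) ∧
    X = univ.image f

/-- A red/blue colouring of `Kₙ` is given by its red graph `c`; the blue graph is `cᶜ`.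
`X` is admissible if it is the vertex set of a red `G` or of a blue `H`. -/
def Admissible {a b n : ℕ} (G : SimpleGraph (Fin a)) (H : SimpleGraph (Fin b))
    (c : SimpleGraph (Fin n)) (X : Finset (Fin n)) : Prop :=
  IsCopySet G c X ∨ IsCopySet H cᶜ X

/-- the Ramsey number `r(G,H)` -/
noncomputable def ramsey {a b : ℕ} (G : SimpleGraph (Fin a)) (H : SimpleGraph (Fin b)) : ℕ :=
  sInf {N | ∀ c : SimpleGraph (Fin N), ∃ X, Admissible G H c X}

/-- the red degree -/
noncomputable def deg {n : ℕ} (c : SimpleGraph (Fin n)) (u : Fin n) : ℕ :=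
  (univ.filter fun v => c.Adj u v).card

/-- the degree spread of `X`: the largest difference of red degrees of two vertices of `X` -/
noncomputable def spread {n : ℕ} (c : SimpleGraph (Fin n)) (X : Finset (Fin n)) : ℕ :=
  X.sup fun u => X.sup fun v => deg c u - deg c v

/-- the degree spread of the colouring: the minimum over admissible sets -/
noncomputable def cspread {a b n : ℕ} (G : SimpleGraph (Fin a)) (H : SimpleGraph (Fin b))
    (c : SimpleGraph (Fin n)) : ℕ :=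
  sInf {s | ∃ X, Admissible G H c X ∧ spread c X = s}

/-- `Φₙ(G,H)`: the maximum over all colourings -/
noncomputable def Phi {a b : ℕ} (n : ℕ) (G : SimpleGraph (Fin a)) (H : SimpleGraph (Fin b)) : ℕ :=
  univ.sup fun c : SimpleGraph (Fin n) => cspread G H c

def P3 : SimpleGraph (Fin 3) where
  Adj u v := (u = 1 ∧ v ≠ 1) ∨ (v = 1 ∧ u ≠ 1)
  symm := ⟨fun _ _ h => h.symm⟩
  loopless := ⟨fun _ h => by tauto⟩

def mat (a b c d e f g h i j : Bool) : Fin 5 → Fin 5 → Bool :=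
  ![![false, a, b, c, d], ![a, false, e, f, g], ![b, e, false, h, i], ![c, f, h, false, j],
    ![d, g, i, j, false]]

def dg (M : Fin 5 → Fin 5 → Bool) (u : Fin 5) : ℕ :=
  (M u 0).toNat + (M u 1).toNat + (M u 2).toNat + (M u 3).toNat + (M u 4).toNat

def good (M : Fin 5 → Fin 5 → Bool) : Prop :=
  ∃ u v w : Fin 5, (u ≠ v ∧ u ≠ w ∧ v ≠ w) ∧
    ((M u v = true ∧ M v w = true) ∨ (M u v = false ∧ M u w = false ∧ M v w = false)) ∧
    dg M u ≤ dg M v + 2 ∧ dg M u ≤ dg M w + 2 ∧ dg M v ≤ dg M u + 2 ∧ dg M v ≤ dg M w + 2 ∧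
    dg M w ≤ dg M u + 2 ∧ dg M w ≤ dg M v + 2

theorem key0 : ∀ a b c d e f g h i j : Bool, good (mat a b c d e f g h i j) := by
  unfold good
  decide +kernel

theorem key (c : SimpleGraph (Fin 5)) : 
    ∃ X, Admissible P3 (⊤ : SimpleGraph (Fin 3)) c X ∧ spread c X ≤ 2 := by
  have h := key0 (c.Adj 0 1) (c.Adj 0 2) (c.Adj 0 3) (c.Adj 0 4) (c.Adj 1 2) (c.Adj 1 3)
    (c.Adj 1 4) (c.Adj 2 3) (c.Adj 2 4) (c.Adj 3 4)
  have hM : mat (c.Adj 0 1) (c.Adj 0 2) (c.Adj 0 3) (c.Adj 0 4) (c.Adj 1 2) (c.Adj 1 3)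
      (c.Adj 1 4) (c.Adj 2 3) (c.Adj 2 4) (c.Adj 3 4) = fun u v => decide (c.Adj u v) := by
    funext u v
    fin_cases u <;> fin_cases v <;> simp [mat] <;> exact c.adj_comm _ _
  rw [hM] at h
  have hd : ∀ u, dg (fun u v => decide (c.Adj u v)) u = deg c u := by
    intro u
    rw [deg, Finset.card_filter, Fin.sum_univ_five]
    simp only [dg, Bool.toNat, Bool.cond_decide]
  obtain ⟨u, v, w, ⟨h1, h2, h3⟩, h4, h5⟩ := h
  simp only [hd, decide_eq_true_eq, decide_eq_false_iff_not] at h4 h5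
  have hi : Function.Injective ![u, v, w] := by
    intro x y
    fin_cases x <;> fin_cases y <;> simp_all [eq_comm]
  refine ⟨univ.image ![u, v, w], ?_, ?_⟩
  · rcases h4 with h4 | h4
    · refine Or.inl ⟨_, hi, ?_, rfl⟩
      intro x y
      fin_cases x <;> fin_cases y <;> simp_all [P3, c.adj_comm]
    · refine Or.inr ⟨_, hi, ?_, rfl⟩
      intro x y
      fin_cases x <;> fin_cases y <;> simp_all [c.adj_comm, eq_comm]
  · simp only [spread, Finset.sup_le_iff, Finset.mem_image, Finset.mem_univ, true_and,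
      forall_exists_index, forall_apply_eq_imp_iff]
    intro x y
    fin_cases x <;> fin_cases y <;> simp <;> omega

theorem ram : ramsey P3 (⊤ : SimpleGraph (Fin 3)) = 5 := by
  have h5 : 5 ∈ {N | ∀ c : SimpleGraph (Fin N), ∃ X, Admissible P3 (⊤ : SimpleGraph (Fin 3)) c X} :=
    fun c => (key c).imp fun _ h => h.1
  apply le_antisymm (Nat.sInf_le h5)
  apply le_csInf ⟨5, h5⟩
  intro N hN
  by_contra hlt
  let c : SimpleGraph (Fin N) :=
    { Adj := fun u v => u ≠ v ∧ u.1 / 2 = v.1 / 2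
      symm := ⟨fun _ _ h => ⟨h.1.symm, h.2.symm⟩⟩
      loopless := ⟨fun _ h => h.1 rfl⟩ }
  obtain ⟨X, ⟨f, hf, h, -⟩ | ⟨f, hf, h, -⟩⟩ := hN c
  · have h1 := h 0 1 (by simp [P3])
    have h2 := h 1 2 (by simp [P3])
    have h3 : f 0 ≠ f 2 := fun e => by simpa using hf e
    simp only [c, ne_eq, Fin.ext_iff] at h1 h2 h3
    omega
  · have h1 := h 0 1 (by simp)
    have h2 := h 1 2 (by simp)
    have h3 := h 0 2 (by simp)
    have := (f 0).2
    have := (f 1).2
    have := (f 2).2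
    simp only [c, SimpleGraph.compl_adj, ne_eq, Fin.ext_iff] at h1 h2 h3
    omega

theorem result : ∃ (a b : ℕ) (G : SimpleGraph (Fin a)) (H : SimpleGraph (Fin b)),
    (∀ u, ∃ v, G.Adj u v) ∧ (∀ u, ∃ v, H.Adj u v) ∧ (∃ u v, G.Adj u v) ∧ (∃ u v, H.Adj u v) ∧
    (∃ N, ∀ c : SimpleGraph (Fin N), ∃ X, Admissible G H c X) ∧
    ∃ n, ramsey G H ≤ n ∧ Phi n G H < ramsey G H - 2 := by
  refine ⟨3, 3, P3, ⊤, ?_, by decide, ⟨0, 1, by simp [P3]⟩, by decide,
    ⟨5, fun c => (key c).imp fun _ h => h.1⟩, 5, ram.le, ?_⟩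
  · intro u
    fin_cases u
    · exact ⟨1, by simp [P3]⟩
    · exact ⟨0, by simp [P3]⟩
    · exact ⟨1, by simp [P3]⟩
  · rw [ram]
    apply Nat.lt_succ_of_le
    apply Finset.sup_le
    intro c _
    obtain ⟨X, h1, h2⟩ := key c
    exact le_trans (Nat.sInf_le (s := {s | ∃ X, Admissible P3 ⊤ c X ∧ spread c X = s})
      ⟨X, h1, rfl⟩) h2

end Pool.Agent.Results.MP_f2857b_co.SpreadFails
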